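import Pool.Agent.H550U.V.Seq2

/-!
# An infinite sequence of primes that obeys Ulam's greedy rule for almost all `n`

Let `A` be a finite set of primes, none of which except possibly `2` is `2` modulo `3`. There are `m ≥ 1` and an infinite
strictly increasing sequence `q` of primes with `A` among the first `m` terms such that every later term `q (n + 1)` is of
the form `q n + q i - 1` with `i < n`, and such that for all `n` outside a set of density zero `q (n + 1)` is the least
prime of this form.
-/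

namespace Pool.Agent.Results.MP_fc18ea_nt.AlmostAll

theorem result (A : Finset ℕ) (hA : ∀ p ∈ A, p.Prime ∧ (p = 2 ∨ p % 3 ≠ 2)) :
    ∃ m : ℕ, 1 ≤ m ∧ ∃ q : ℕ → ℕ,
      (∀ i, (q i).Prime) ∧
      (∀ i j, i < j → q i < q j) ∧
      (∀ p ∈ A, ∃ i, i < m ∧ q i = p) ∧
      (∀ n, m - 1 ≤ n → ∃ i, i < n ∧ q (n + 1) = q n + q i - 1) ∧
      Filter.Tendsto (fun N : ℕ => ({n : ℕ | n < N ∧
        ¬ IsLeast {p : ℕ | p.Prime ∧ ∃ i, i < n ∧ p = q n + q i - 1} (q (n + 1))}.ncard : ℝ) / N)
        Filter.atTop (nhds 0) :=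
  Pool.Agent.H550U.V.almost A hA

end Pool.Agent.Results.MP_fc18ea_nt.AlmostAll
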